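import Pool.Agent.H935.FF.Family
import Pool.Agent.H935.FF.Refl
import Pool.Agent.H935.FF.Lin

/-!
# The Fano function does not determine a del Pezzo surface

Answer to Q1 of MP_3acf9a_ag: the statement is false. There is a family of pairwise
non-isomorphic del Pezzo surfaces `S x` over `ℂ`, indexed by the real numbers, all of which have
the same Fano function.

Objects (definitions in `Pool.Agent.H935.FF.Defs`):

* varieties over `ℂ` are objects of `Over SpecC` (schemes with a morphism to `Spec ℂ`), and
  isomorphisms are isomorphisms over `ℂ`;
* `IsFano n X`: `X` is integral, smooth of relative dimension `n` and proper over `ℂ`, with ample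
  anticanonical sheaf (so it is projective). A del Pezzo surface is an `X` with `IsFano 2 X`;
* `Embeds Y X`: there is a `ℂ`-linear fully faithful exact functor `D^b(Y) ⥤ D^b(X)`;
  `EmbedsNonlinear Y X` is the same without linearity. The theorem treats both readings of host.
  A functor is linear if it preserves the multiplications by complex numbers on all objects; this
  is equivalent to the usual condition `F (c f) = c (F f)` (theorem `isLinearOver_iff` in
  `Pool.Agent.H935.FF.Lin`);
* `fanoFunction Y n` is the number of deformation classes of irreducible Fano hosts of dimension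
  `n`, a cardinal number (finite by the boundedness of Fano varieties, which is not used), and
  `fanoFunctionNonlinear Y n` is the version for functors which need not be linear.

Proof. For an automorphism `σ` of the field `ℂ` and a variety `X`, let `X^σ` be `X` with its
structure morphism composed with `Spec σ`. The derived category does not see the structure
morphism, so that `Y ↦ X` is a host relation for the pair `(Y^σ, X^σ)` as soon as it is one
for `(Y, X)`, and `X ↦ X^σ` permutes the deformation classes of Fano varieties of each dimension.
Hence the Fano functions of `Y` and `Y^σ` are equal, for all `Y` and `σ`. On the other hand let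
`S_t` be the surface `s² = x₀² + x₁² + x₂²`, `r² = x₀² + 2 x₁² + t x₂²` in `ℙ⁴`. It is a del Pezzo
surface of degree four for `t ∉ {0, 1, 2}`, and for `t` transcendental, if `S_t^σ` and `S_t^τ` are
isomorphic then `t` is in the field generated by `σ (τ⁻¹ t)`: the anticanonical embedding turns
the isomorphism into an isomorphism of pencils of quadrics.
-/

set_option autoImplicit false

open CategoryTheory AlgebraicGeometry
open Pool.Agent.H935.FF

namespace Pool.Agent.Results.MP_3acf9a_ag.FanoFunctionNotInjective

/-- There is a family `S` of pairwise non-isomorphic del Pezzo surfaces over `ℂ`, indexed by `ℝ`,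
such that all the surfaces `S x` have the same Fano function, for both readings of Fano hosts. The
common function is not zero. -/
theorem result : ∃ S : ℝ → Over SpecC,
    (∀ x, IsFano 2 (S x)) ∧
    (∀ x y, x ≠ y → ¬Nonempty (S x ≅ S y)) ∧
    (∀ x, fanoFunction (S x) 2 ≠ 0) ∧
    ∀ x y n, fanoFunction (S x) n = fanoFunction (S y) n ∧
      fanoFunctionNonlinear (S x) n = fanoFunctionNonlinear (S y) n := by
  obtain ⟨t, σ, h1, h2⟩ := exists_family
  have h3 : ∀ x, IsFano 2 (twist (σ x) (SO t)) := fun x => isFano_twist 2 _ (σ x) h1
  refine ⟨fun x => twist (σ x) (SO t), h3, h2, fun x h => ?_, fun x y n => ⟨?_, ?_⟩⟩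
  · have h4 := Cardinal.mk_eq_zero_iff.1 h
    exact h4.false ⟨_, twist (σ x) (SO t), h3 x, embeds_refl _, rfl⟩
  · rw [fanoFunction_twist, fanoFunction_twist]
  · rw [fanoFunctionNonlinear_twist, fanoFunctionNonlinear_twist]

end Pool.Agent.Results.MP_3acf9a_ag.FanoFunctionNotInjective
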